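import Pool.Agent.Q302.ME.Fin

/-!
# MP_817dae_lc, Q1: no

There is a maximal ideal `I` on `ω` for which no closed (even no Borel) subset of `ω^ω` is an
`I`-MED; more generally any family of at most continuum many candidates can be avoided.
-/

namespace Pool.Agent.Results.MP_817dae_lc.NoClosedMED

open Pool.Agent.Q302.ME Cardinal

/-- Full negative answer to Q1 of MP_817dae_lc (the negated form holds). -/
theorem result :
    (∃ I, IsMaximalIdeal I ∧ ∀ E : Set (ℕ → ℕ), IsClosed E → ¬ IsMED I E) ∧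
    (∃ I, IsMaximalIdeal I ∧
      ∀ E : Set (ℕ → ℕ), @MeasurableSet _ (borel (ℕ → ℕ)) E → ¬ IsMED I E) ∧
    ∀ 𝓔 : Set (Set (ℕ → ℕ)), #𝓔 ≤ 𝔠 → ∃ I, IsMaximalIdeal I ∧ ∀ E ∈ 𝓔, ¬ IsMED I E := by
  obtain ⟨I, hI, hIE⟩ := main _ card_borel_le
  have hb : ∀ E : Set (ℕ → ℕ), @MeasurableSet _ (borel (ℕ → ℕ)) E → ¬ IsMED I E :=
    fun E hE => hIE E hE
  refine ⟨⟨I, hI, fun E hE => hb E ?_⟩, ⟨I, hI, hb⟩, main⟩
  borelize (ℕ → ℕ)
  exact hE.measurableSet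

end Pool.Agent.Results.MP_817dae_lc.NoClosedMED
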